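import Mathlib
import Pool.Agent.Q12.GS.Bd
import Pool.Agent.TH345.ET.W

/-! Continuation or transcendence on the edge, for the `L`-functions of all tempered representations of `GSp(2n)`. -/

set_option autoImplicit false

open Filter Topology MeasureTheory
open Pool.Agent.Q12.GS

namespace Pool.Agent.Results.MP_eea520_nt.ContinuationOrTranscendence

/-- `f`, a function on the half-plane `Re s > 1`, continues holomorphically to a neighbourhood of `1 + iτ` -/
def Continues (f : ℂ → ℂ) (τ : ℝ) : Prop :=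
  ∃ φ : ℂ → ℂ, AnalyticAt ℂ φ (edge τ) ∧ ∀ᶠ s in 𝓝 (edge τ), 1 < s.re → f s = φ s

/-- the values at `s` of the functions in `A` which are analytic at `s` -/
def values (A : Set (ℂ → ℂ)) (s : ℂ) : Set ℂ := {z : ℂ | ∃ g ∈ A, AnalyticAt ℂ g s ∧ g s = z}

/-- **Continuation or transcendence.** Let `L_j = L_{S_j}(s, π_j, ρ_j)` be any countable family of Euler products for
the groups `GSp(2n_j)`, all of them tempered. There are functions `l_j` on the real line such that

* for all `τ` outside one set of Hausdorff dimension `0`, for all `j`: `l_j(τ) ≠ 0`, and `L_j(s)` tends to `l_j(τ)` as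
  `s` tends to `1 + iτ` in any angle in the half-plane `Re s > 1`;
* for every countable set `A` of functions, for almost every real `τ`, for ALL products `∏_j L_j^{k_j}` with integer
  exponents, almost all of them zero: either the product continues holomorphically to a neighbourhood of `1 + iτ`, or
  its boundary value `∏_j l_j(τ)^{k_j}` is transcendental over the field generated over `ℚ` by the values `g(1 + iτ)`
  of all functions `g` in `A` which are analytic at `1 + iτ`. -/
theorem result (ι : Type) [Countable ι] (D : ι → Datum) (hD : ∀ j, (D j).Tempered) :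
    ∃ l : ι → ℝ → ℂ,
      (∃ N : Set ℝ, dimH N = 0 ∧ ∀ τ : ℝ, τ ∉ N → ∀ j, l j τ ≠ 0 ∧ ∀ C : ℝ,
        Tendsto (D j).LFun (𝓝[angle τ C] (edge τ)) (𝓝 (l j τ))) ∧
      ∀ A : Set (ℂ → ℂ), A.Countable → ∀ᵐ τ : ℝ, ∀ k : ι →₀ ℤ,
        Continues (fun s => k.prod fun j e => (D j).LFun s ^ e) τ ∨
          Transcendental (IntermediateField.adjoin ℚ (values A (edge τ))) (k.prod fun j e => l j τ ^ e) := by
  refine ⟨fun j => lb (D j), ⟨_, exc_dim hD, fun τ hτ j => ⟨lb_ne _ _, fun C => ?_⟩⟩, fun A hA => ?_⟩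
  · refine LFun_angle (hD j) (fun h => hτ ?_) C
    exact Set.mem_iUnion.2 ⟨j, h⟩
  · have h1 : ∀ᵐ τ : ℝ, ∀ j, τ ∉ Pool.Agent.W350.Edge.divSet (Pool.Agent.TH339.MP.ap (co (D j))) := by
      rw [ae_all_iff]
      exact fun j => Pool.Agent.TH339.MP.ae_notMem (co_norm (hD j))
    have h2 : ∀ᵐ τ : ℝ, ∀ k : ι →₀ ℤ,
        τ ∉ Pool.Agent.W350.Edge.divSet (Pool.Agent.TH339.MP.ap (cb D k.support fun j => (k j : ℂ))) := by
      rw [ae_all_iff]
      exact fun k => Pool.Agent.TH339.MP.ae_notMem (cb_norm hD _ _)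
    have h3 : ∀ᵐ τ : ℝ, ∀ k : ι →₀ ℤ,
        Pool.Agent.TH345.ET.Cont (cb D k.support fun j => (k j : ℂ)) (fun _ => 1) τ ∨
          Transcendental (IntermediateField.adjoin ℚ (Pool.Agent.TH345.ET.vals A (Pool.Agent.TH345.ET.ep τ)))
            (Pool.Agent.TH345.ET.bv (cb D k.support fun j => (k j : ℂ)) (fun _ => 1) τ) := by
      rw [ae_all_iff]
      exact fun k => Pool.Agent.TH345.ET.ae_transcendental (cb_norm hD _ _) (fun _ => analyticAt_const) hA
    filter_upwards [h1, h2, h3] with τ g1 g2 g3 k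
    rcases g3 k with ⟨φ, hφ, hev⟩ | hT
    · left
      refine ⟨φ, hφ, ?_⟩
      filter_upwards [hev] with s hs hs1
      show (k.prod fun j e => (D j).LFun s ^ e) = φ s
      rw [prod_LFun hD k hs1, ← hs hs1, one_mul]
    · right
      rw [prod_lb hD k g1 (g2 k)]
      unfold Pool.Agent.TH345.ET.bv at hT
      rw [one_mul] at hT
      exact hT

end Pool.Agent.Results.MP_eea520_nt.ContinuationOrTranscendence
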