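import Mathlib
import Pool.Agent.Q12.GS.Win

/-! One-sided bounds in windows exclude the poles and zeros of the continuations of `L_S(s, π, ρ)`. -/

set_option autoImplicit false

open Set
open Pool.Agent.Q12.GS

namespace Pool.Agent.Results.MP_eea520_nt.OneSidedHolomorphy

/-- `F` is a meromorphic continuation of `L_S(s, π, ρ)` to `ℂ`, as predicted by the problem -/
def Continuation (D : Datum) (F : ℂ → ℂ) : Prop :=
  MeromorphicOn F univ ∧ ∀ s : ℂ, 1 < s.re → F s = D.LFun s

/-- Let `c ≥ 1/2`, `δ > 0`. `BoundedBelow c δ f` says that `f x ≥ -(A x^c + B)` for some `A, B` in the windows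
`[X^{1-δ}, X]` for arbitrarily large `X`; nothing is assumed on `f` for other `x`.

(1) Let `F_j` be meromorphic continuations of finitely many `L_{S_j}(s, π_j, ρ_j)`, all tempered, for groups `GSp(2n_j)`,
and `m_j` integers, such that the family is closed under complex conjugation. If
`∑_{p ≤ x} ∑_j m_j Re tr ρ_j(A_{j,p})` is bounded below in windows and `∏ F_j^{m_j}` has no real pole beyond `c`, then
`∏ F_j^{m_j}` has no pole and no zero with real part `> c`.

(2) Let the characteristic polynomials of `ρ(A_p)` be real (for example the central character of `π` is trivial),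
and `F` a meromorphic continuation of `L_S(s, π, ρ)`. If `∑_{p ≤ x} Re tr ρ(A_p)` is bounded below in windows and `F` has
no real pole beyond `c`, or if it is bounded above in windows and `F` has no real zero beyond `c`, then `F` has no pole
and no zero with real part `> c`. -/
theorem result :
    (∀ (ι : Type) [Fintype ι] (D : ι → Datum) (F : ι → ℂ → ℂ) (m : ι → ℤ) (τ : Equiv.Perm ι),
      (∀ j, (D j).Tempered) → (∀ j, Continuation (D j) (F j)) → (∀ j, m (τ j) = m j ∧ IsConj (D j) (D (τ j))) →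
      ∀ c δ : ℝ, 1 / 2 ≤ c → 0 < δ → (∀ x : ℝ, c < x → 0 ≤ ∑ j, m j * ord (F j) (x : ℂ)) →
      BoundedBelow c δ (trSum m D) → ∀ ρ : ℂ, c < ρ.re → ∑ j, m j * ord (F j) ρ = 0) ∧
    (∀ (D : Datum) (F : ℂ → ℂ), D.Tempered → Continuation D F → IsConj D D →
      ∀ c δ : ℝ, 1 / 2 ≤ c → 0 < δ →
      (((∀ x : ℝ, c < x → 0 ≤ ord F (x : ℂ)) ∧ BoundedBelow c δ (trSum (fun _ : Unit => 1) fun _ => D)) ∨
        ((∀ x : ℝ, c < x → ord F (x : ℂ) ≤ 0) ∧ BoundedBelow c δ (trSum (fun _ : Unit => -1) fun _ => D))) →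
      ∀ ρ : ℂ, c < ρ.re → ord F ρ = 0) := by
  refine ⟨?_, ?_⟩
  · intro ι _ D F m τ hD hF hτ c δ hc hδ hr hw ρ hρ
    exact mcomb' hD hτ (fun j => (hF j).1) (fun j => (hF j).2) hc hr hδ hw hρ
  · intro D F hD hF hc' c δ hc hδ h ρ hρ
    rcases h with ⟨hr, hw⟩ | ⟨hr, hw⟩
    · have h1 := mcomb' (ι := Unit) (D := fun _ => D) (fun _ => hD) (m := fun _ => 1) (τ := Equiv.refl Unit)
        (fun _ => ⟨rfl, hc'⟩) (F := fun _ => F) (fun _ => hF.1) (fun _ => hF.2) hc
        (fun x hx => by simpa using hr x hx) hδ hw hρ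
      simpa using h1
    · have h1 := mcomb' (ι := Unit) (D := fun _ => D) (fun _ => hD) (m := fun _ => -1) (τ := Equiv.refl Unit)
        (fun _ => ⟨rfl, hc'⟩) (F := fun _ => F) (fun _ => hF.1) (fun _ => hF.2) hc
        (fun x hx => by simpa using hr x hx) hδ hw hρ
      simpa using h1

end Pool.Agent.Results.MP_eea520_nt.OneSidedHolomorphy
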